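import Pool.Agent.R279.PosK

set_option autoImplicit false

open Filter Topology Set

/-!
# Averaging and extension operators from Bernoulli products

`V : C(Δ) → C([0,1]^ℕ)` is the operator `V y t = ∫ y d(⊗ Bernoulli(t n))`.  Composing it with maps
`H : K → [0,1]^ℕ` one obtains the extension operators and the averaging operators that are needed.
-/

namespace Pool.Agent.R279.PosK

open Pool.Agent.H342R3.PosIso

/-- the Hilbert cube -/
abbrev Cube := ℕ → unitInterval

/-- the shift of the Hilbert cube -/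
def shiftC : C(Cube, Cube) := ⟨fun t n => t (n + 1), by fun_prop⟩

/-- the zeroth coordinate -/
noncomputable def wt (b : Bool) : C(Cube, ℝ) where
  toFun t := if b then 1 - (t 0 : ℝ) else (t 0 : ℝ)
  continuous_toFun := by
    cases b
    · simp only [Bool.false_eq_true, if_false]; fun_prop
    · simp only [if_true]; fun_prop

lemma wt_false (t : Cube) : wt false t = (t 0 : ℝ) := rfl
lemma wt_true (t : Cube) : wt true t = 1 - (t 0 : ℝ) := rfl

lemma wt_nonneg (b : Bool) (t : Cube) : 0 ≤ wt b t := by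
  cases b
  · exact (t 0).2.1
  · rw [wt_true]; linarith [(t 0).2.2]

noncomputable def Bc (b : Bool) : C(Cube, ℝ) →L[ℝ] C(Cube, ℝ) :=
  (ContinuousLinearMap.mul ℝ C(Cube, ℝ) (wt b)).comp (ContinuousMap.compCLM ℝ ℝ shiftC)

lemma Bc_apply (b : Bool) (g : C(Cube, ℝ)) (t : Cube) : Bc b g t = wt b t * g (shiftC t) := rfl

lemma Bc_data : Data (0 : Y →L[ℝ] C(Cube, ℝ)) Bc := by
  refine ⟨fun f hf t => by simp, ?_, ?_⟩
  · intro b f hf t
    rw [Bc_apply]
    exact mul_nonneg (wt_nonneg b t) (hf _)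
  · ext t
    simp only [ContinuousMap.add_apply, Bc_apply, ContinuousMap.one_apply, mul_one,
      _root_.zero_apply, ContinuousMap.zero_apply, zero_add, wt_false, wt_true]
    ring

/-- `ω` is compatible with `t` if `t n ≠ 0` whenever `ω n = false` and `t n ≠ 1` whenever
`ω n = true`. -/
def Compat (t : Cube) (ω : Cant) : Prop :=
  ∀ n, (ω n = false → (t n : ℝ) ≠ 0) ∧ (ω n = true → (t n : ℝ) ≠ 1)

lemma exists_compat (t : Cube) : ∃ ω, Compat t ω := by
  classical
  refine ⟨fun n => if (t n : ℝ) = 0 then true else false, fun n => ⟨?_, ?_⟩⟩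
  · intro h h0
    simp [h0] at h
  · intro h
    by_cases h0 : (t n : ℝ) = 0
    · rw [h0]; norm_num
    · simp [h0] at h

lemma compat_cons {t : Cube} {b : Bool} {ω : Cant} (h : Compat (shiftC t) ω) (hb : wt b t ≠ 0) :
    Compat t (cons b ω) := by
  intro n
  cases n with
  | zero =>
    rw [cons_zero]
    cases b
    · refine ⟨fun _ => hb, fun h => by simp at h⟩
    · refine ⟨fun h => by simp at h, fun _ h1 => hb ?_⟩
      rw [wt_true, h1, sub_self]
  | succ n => exact h n

/-- the Bernoulli product operator -/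
theorem exists_V : ∃ V : Y →L[ℝ] C(Cube, ℝ), PU V ∧
    ∀ (y : Y) (t : Cube) (c : ℝ), (∀ ω, Compat t ω → y ω = c) → V y t = c := by
  obtain ⟨V, hV, hfix⟩ := exists_fix Bc_data
  have hrec : ∀ y t, V y t = wt false t * V (pre false y) (shiftC t) +
      wt true t * V (pre true y) (shiftC t) := by
    intro y t
    have : V y t = Phi 0 Bc V y t := by rw [hfix]
    rw [this, Phi_apply]
    simp only [ContinuousMap.add_apply, Bc_apply, _root_.zero_apply,
      ContinuousMap.zero_apply, zero_add]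
  have key : ∀ n : ℕ, ∀ (y : Y) (t : Cube) (c δ : ℝ), 0 ≤ δ → Osc n y δ →
      (∀ ω, Compat t ω → y ω = c) → |V y t - c| ≤ δ := by
    intro n
    induction n with
    | zero =>
      intro y t c δ hδ hosc hc
      obtain ⟨ω, hω⟩ := exists_compat t
      refine hV.abs_sub_le (fun ω' => ?_) t
      rw [← hc ω hω]
      exact hosc _ _ (fun i hi => absurd hi (Nat.not_lt_zero i))
    | succ n ih =>
      intro y t c δ hδ hosc hc
      have hterm : ∀ b, |wt b t * V (pre b y) (shiftC t) - wt b t * c| ≤ wt b t * δ := by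
        intro b
        rw [← mul_sub, abs_mul, abs_of_nonneg (wt_nonneg b t)]
        by_cases hq : wt b t = 0
        · rw [hq]; simp
        · refine mul_le_mul_of_nonneg_left ?_ (wt_nonneg b t)
          refine ih _ _ _ _ hδ (hosc.pre b) (fun ω hω => ?_)
          exact hc _ (compat_cons hω hq)
      have e : V y t - c = (wt false t * V (pre false y) (shiftC t) - wt false t * c) +
          (wt true t * V (pre true y) (shiftC t) - wt true t * c) := by
        rw [hrec, wt_false, wt_true]; ring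
      rw [e]
      refine (abs_add_le _ _).trans ((add_le_add (hterm false) (hterm true)).trans ?_)
      rw [wt_false, wt_true]
      linarith
  refine ⟨V, hV, fun y t c hc => ?_⟩
  by_contra hne
  have hpos : 0 < |V y t - c| := abs_pos.2 (sub_ne_zero.2 hne)
  obtain ⟨n, hn⟩ := exists_osc y (half_pos hpos)
  have := key n y t c _ (half_pos hpos).le hn hc
  linarith

section ext

variable {K : Type*} [TopologicalSpace K] [CompactSpace K]

/-- The extension operator for a copy of the Cantor space. -/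
theorem exists_RE_of_embedding [T2Space K] (i : Cant → K) (hi : Continuous i)
    (hinj : Function.Injective i) :
    ∃ (R : C(K,ℝ) →L[ℝ] Y) (E : Y →L[ℝ] C(K,ℝ)), PU R ∧ PU E ∧ ∀ y, R (E y) = y := by
  obtain ⟨V, hV, hloc⟩ := exists_V
  have hurysohn : ∀ n : ℕ, ∃ h : C(K, unitInterval),
      (∀ ω : Cant, ω n = false → (h (i ω) : ℝ) = 1) ∧
      (∀ ω : Cant, ω n = true → (h (i ω) : ℝ) = 0) := by
    intro n
    have hc : ∀ b : Bool, IsClosed {ω : Cant | ω n = b} := fun b =>
      isClosed_eq (continuous_apply n) continuous_const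
    have hcc : ∀ b : Bool, IsClosed (i '' {ω : Cant | ω n = b}) := fun b =>
      ((hc b).isCompact.image hi).isClosed
    have hd : Disjoint (i '' {ω : Cant | ω n = true}) (i '' {ω : Cant | ω n = false}) := by
      rw [Set.disjoint_left]
      rintro x ⟨a, ha, rfl⟩ ⟨b, hb, hab⟩
      have := hinj hab
      rw [this] at hb
      simp only [mem_setOf_eq] at ha hb
      rw [ha] at hb
      exact absurd hb (by decide)
    obtain ⟨f, h0, h1, hf⟩ := exists_continuous_zero_one_of_isClosed (hcc true) (hcc false) hd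
    refine ⟨⟨fun x => ⟨f x, hf x⟩, f.continuous.subtype_mk _⟩, fun ω hω => ?_, fun ω hω => ?_⟩
    · exact h1 ⟨ω, hω, rfl⟩
    · exact h0 ⟨ω, hω, rfl⟩
  choose h h1 h0 using hurysohn
  let H : C(K, Cube) := ⟨fun x n => h n x, continuous_pi fun n => (h n).continuous⟩
  let I : C(Cant, K) := ⟨i, hi⟩
  refine ⟨ContinuousMap.compCLM ℝ ℝ I, (ContinuousMap.compCLM ℝ ℝ H).comp V, PU_comp I,
    (PU_comp H).comp hV, fun y => ?_⟩
  ext ω
  change V y (H (i ω)) = y ω
  refine hloc y _ _ (fun ω' hω' => ?_)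
  congr 1
  funext n
  have h2 := hω' n
  change ((ω' n = false → (h n (i ω) : ℝ) ≠ 0) ∧ (ω' n = true → (h n (i ω) : ℝ) ≠ 1)) at h2
  cases hb : ω n
  · cases hb' : ω' n
    · rfl
    · exact absurd (h1 n ω hb) (h2.2 hb')
  · cases hb' : ω' n
    · exact absurd (h0 n ω hb) (h2.1 hb')
    · rfl

/-- Separating sequences of functions give averaging operators. -/
theorem exists_uJ_of_sep [T2Space K] [Nonempty K] (h : ℕ → C(K, unitInterval))
    (hsep : ∀ x y : K, x ≠ y → ∃ n, ((∀ᶠ z in 𝓝 x, (h n z : ℝ) = 0) ∧ (∀ᶠ z in 𝓝 y, (h n z : ℝ) = 1))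
      ∨ ((∀ᶠ z in 𝓝 y, (h n z : ℝ) = 0) ∧ (∀ᶠ z in 𝓝 x, (h n z : ℝ) = 1))) :
    ∃ (J : C(K,ℝ) →L[ℝ] Y) (u : Y →L[ℝ] C(K,ℝ)), PU J ∧ PU u ∧ ∀ x, u (J x) = x := by
  obtain ⟨V, hV, hloc⟩ := exists_V
  let H : C(K, Cube) := ⟨fun x n => h n x, continuous_pi fun n => (h n).continuous⟩
  -- the closed sets
  let A : ℕ → Bool → Set K := fun n b => if b then {x | (h n x : ℝ) ≠ 1} else {x | (h n x : ℝ) ≠ 0}
  let G : Set (Cant × K) := {p | ∀ n, p.2 ∈ closure (A n (p.1 n))}
  have hG : IsClosed G := by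
    have : G = ⋂ n, ({p : Cant × K | p.1 n = false ∧ p.2 ∈ closure (A n false)} ∪
        {p : Cant × K | p.1 n = true ∧ p.2 ∈ closure (A n true)}) := by
      ext p
      simp only [G, mem_setOf_eq, mem_iInter, mem_union]
      refine forall_congr' fun n => ?_
      cases hb : p.1 n <;> simp
    rw [this]
    refine isClosed_iInter fun n => ?_
    have hcl : ∀ b : Bool, IsClosed {p : Cant × K | p.1 n = b ∧ p.2 ∈ closure (A n b)} := by
      intro b
      have e : {p : Cant × K | p.1 n = b ∧ p.2 ∈ closure (A n b)} =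
          {p : Cant × K | p.1 n = b} ∩ Prod.snd ⁻¹' (closure (A n b)) := rfl
      rw [e]
      exact (isClosed_eq ((continuous_apply n).comp continuous_fst) continuous_const).inter
        (isClosed_closure.preimage continuous_snd)
    exact (hcl false).union (hcl true)
  have hcompact : CompactSpace G := isCompact_iff_compactSpace.mp hG.isCompact
  -- uniqueness of the point
  have huniq : ∀ (ω : Cant) (x y : K), (ω, x) ∈ G → (ω, y) ∈ G → x = y := by
    intro ω x y hx hy
    by_contra hne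
    have aux : ∀ x y : K, (ω, x) ∈ G → (ω, y) ∈ G → ∀ n, (∀ᶠ z in 𝓝 x, (h n z : ℝ) = 0) →
        (∀ᶠ z in 𝓝 y, (h n z : ℝ) = 1) → False := by
      intro x y hx hy n h0 h1
      have hxn := hx n
      have hyn := hy n
      simp only at hxn hyn
      cases hb : ω n
      · rw [hb] at hxn
        have hxn' : x ∈ closure {x | (h n x : ℝ) ≠ 0} := by simpa [A] using hxn
        rw [mem_closure_iff_frequently] at hxn'
        exact hxn' (h0.mono fun z hz hz' => hz' hz)
      · rw [hb] at hyn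
        have hyn' : y ∈ closure {x | (h n x : ℝ) ≠ 1} := by simpa [A] using hyn
        rw [mem_closure_iff_frequently] at hyn'
        exact hyn' (h1.mono fun z hz hz' => hz' hz)
    obtain ⟨n, ⟨h0, h1⟩ | ⟨h0, h1⟩⟩ := hsep x y hne
    · exact aux x y hx hy n h0 h1
    · exact aux y x hy hx n h0 h1
  have hcompatG : ∀ (x : K) (ω : Cant), Compat (H x) ω → (ω, x) ∈ G := by
    intro x ω hω n
    refine subset_closure ?_
    have h2 := hω n
    change ((ω n = false → (h n x : ℝ) ≠ 0) ∧ (ω n = true → (h n x : ℝ) ≠ 1)) at h2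
    change x ∈ A n (ω n)
    cases hb : ω n
    · simpa [A] using h2.1 hb
    · simpa [A] using h2.2 hb
  -- the projection
  let p1 : G → Cant := fun g => g.1.1
  have hp1c : Continuous p1 := continuous_fst.comp continuous_subtype_val
  have hp1i : Function.Injective p1 := by
    rintro ⟨⟨ω, x⟩, hx⟩ ⟨⟨ω', y⟩, hy⟩ hh
    change ω = ω' at hh
    subst hh
    have := huniq ω x y hx hy
    subst this
    rfl
  have hemb : IsClosedEmbedding p1 := hp1c.isClosedEmbedding hp1i
  have hne : (range p1).Nonempty := by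
    obtain ⟨x⟩ := ‹Nonempty K›
    obtain ⟨ω, hω⟩ := exists_compat (H x)
    exact ⟨ω, ⟨⟨(ω, x), hcompatG x ω hω⟩, rfl⟩⟩
  obtain ⟨r, hr1, hr2, hr3⟩ := PiNat.exists_retraction_of_isClosed hemb.isClosed_range hne
  let e : G ≃ₜ range p1 := hemb.isEmbedding.toHomeomorph
  let Φ : C(Cant, K) := ⟨fun ω => (e.symm ⟨r ω, hr2 ▸ mem_range_self ω⟩).1.2, by
    refine continuous_snd.comp (continuous_subtype_val.comp (e.symm.continuous.comp ?_))
    exact hr3.subtype_mk _⟩
  have hΦ : ∀ (ω : Cant) (x : K), (ω, x) ∈ G → Φ ω = x := by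
    intro ω x hx
    have hω : ω ∈ range p1 := ⟨⟨(ω, x), hx⟩, rfl⟩
    have h1 : r ω = ω := hr1 ω hω
    change (e.symm ⟨r ω, _⟩).1.2 = x
    have h2 : (⟨r ω, hr2 ▸ mem_range_self ω⟩ : range p1) = e ⟨(ω, x), hx⟩ := by
      apply Subtype.ext
      change r ω = ω
      exact h1
    rw [h2, e.symm_apply_apply]
  refine ⟨ContinuousMap.compCLM ℝ ℝ Φ, (ContinuousMap.compCLM ℝ ℝ H).comp V, PU_comp Φ,
    (PU_comp H).comp hV, fun f => ?_⟩
  ext x
  change V (f.comp Φ) (H x) = f x
  refine hloc _ _ _ (fun ω hω => ?_)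
  change f (Φ ω) = f x
  rw [hΦ ω x (hcompatG x ω hω)]

end ext

/-- The separating sequence on a compact metric space. -/
theorem exists_sep (K : Type*) [MetricSpace K] [CompactSpace K] [Nonempty K] :
    ∃ h : ℕ → C(K, unitInterval), ∀ x y : K, x ≠ y →
      ∃ n, ((∀ᶠ z in 𝓝 x, (h n z : ℝ) = 0) ∧ (∀ᶠ z in 𝓝 y, (h n z : ℝ) = 1))
      ∨ ((∀ᶠ z in 𝓝 y, (h n z : ℝ) = 0) ∧ (∀ᶠ z in 𝓝 x, (h n z : ℝ) = 1)) := by
  obtain ⟨d, hd⟩ := TopologicalSpace.exists_dense_seq K
  let h : ℕ → C(K, unitInterval) := fun n =>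
    ⟨fun z => Set.projIcc 0 1 zero_le_one ((n.unpair.2 : ℝ) * dist z (d n.unpair.1) - 1), by
      apply continuous_projIcc.comp
      fun_prop⟩
  refine ⟨h, fun x y hxy => ?_⟩
  have hpos : 0 < dist x y := dist_pos.2 hxy
  obtain ⟨m, hm⟩ := exists_nat_gt (3 / dist x y)
  have hm0 : (0:ℝ) < m := lt_trans (by positivity) hm
  obtain ⟨k, hk⟩ := hd.exists_dist_lt x (ε := 1 / m) (by positivity)
  refine ⟨Nat.pair k m, Or.inl ⟨?_, ?_⟩⟩
  · have hev : ∀ᶠ z in 𝓝 x, dist z (d k) < 1 / m :=
      (continuous_id.dist continuous_const).continuousAt.eventually_lt_const hk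
    filter_upwards [hev] with z hz
    change ((Set.projIcc 0 1 zero_le_one
      (((Nat.pair k m).unpair.2 : ℝ) * dist z (d (Nat.pair k m).unpair.1) - 1) : unitInterval) : ℝ) = 0
    rw [Nat.unpair_pair]
    simp only
    rw [Set.projIcc_of_le_left]
    rw [lt_div_iff₀ hm0] at hz
    linarith
  · have hy : 2 / m < dist y (d k) := by
      have h1 : dist x y ≤ dist x (d k) + dist y (d k) := by
        rw [dist_comm y]; exact dist_triangle _ _ _
      have h2 : 3 / (m:ℝ) < dist x y := by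
        rw [div_lt_iff₀ hpos] at hm
        rw [div_lt_iff₀ hm0]
        linarith
      have h3 : 3 / (m:ℝ) = 1 / m + 2 / m := by ring
      linarith
    have hev : ∀ᶠ z in 𝓝 y, 2 / m < dist z (d k) :=
      (continuous_id.dist continuous_const).continuousAt.eventually_const_lt hy
    filter_upwards [hev] with z hz
    change ((Set.projIcc 0 1 zero_le_one
      (((Nat.pair k m).unpair.2 : ℝ) * dist z (d (Nat.pair k m).unpair.1) - 1) : unitInterval) : ℝ) = 1
    rw [Nat.unpair_pair]
    simp only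
    rw [Set.projIcc_of_right_le]
    rw [div_lt_iff₀ hm0] at hz
    linarith

/-- **Main theorem**, in both directions. -/
theorem main (K : Type*) [TopologicalSpace K] [CompactSpace K] [TopologicalSpace.MetrizableSpace K]
    [Uncountable K] :
    (∃ T : C(K, ℝ) ≃L[ℝ] C(ℕ → Bool, ℝ), ∀ f : C(K, ℝ), (∀ x, 0 ≤ f x) → ∀ y, 0 ≤ T f y) ∧
    (∃ T : C(ℕ → Bool, ℝ) ≃L[ℝ] C(K, ℝ),
      ∀ f : C(ℕ → Bool, ℝ), (∀ x, 0 ≤ f x) → ∀ y, 0 ≤ (T f) y) := by
  letI : MetricSpace K := TopologicalSpace.metrizableSpaceMetric K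
  haveI : Nonempty K := inferInstance
  obtain ⟨h, hsep⟩ := exists_sep K
  obtain ⟨J, u, hJ, hu, huJ⟩ := exists_uJ_of_sep h hsep
  have hnc : ¬ (univ : Set K).Countable := fun hc => not_countable (Set.countable_univ_iff.mp hc)
  obtain ⟨i, -, hi, hinj⟩ := isClosed_univ.exists_nat_bool_injection_of_not_countable hnc
  obtain ⟨R, E, hR, hE, hRE⟩ := exists_RE_of_embedding i hi hinj
  exact ⟨iso_to R E hR hE hRE J u hJ hu huJ, iso_from R E hR hE hRE J u hJ hu huJ⟩

end Pool.Agent.R279.PosK
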